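import Pool.Agent.H8.DS.TarG

set_option autoImplicit false

namespace DS

namespace H51CL

open Set Data

variable {C S : Type}

/-- joining two steps at a point off the slits -/
theorem join (h4 : T_EQV) (X : Data C S) (hX : X.Surface) (t : ℝ) (A B : C × ℝ × ℝ) (c : C)
    (z : ℝ × ℝ) (hp : X.Pure c z) (m n : ℝ) (h1 : X.Step t A (c, z) m)
    (h2 : ∃ (h : ℝ) (g : ℝ × ℝ × ℝ), 0 < h ∧ X.Clear t c z h ∧ X.Valid c (fwd t z h) ∧
      g ∈ X.deck c ∧ B = (c, act g (fwd t z h)) ∧ n = g.1) :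
    X.Step t A B (m * n) := by
  obtain ⟨c', z', r', h', g', hS, hh', hC', hV', hg', hP, rfl⟩ := h1
  obtain ⟨k, g, hk, hC, hV, hg, rfl, rfl⟩ := h2
  obtain ⟨rfl, hz⟩ := Prod.mk.inj hP
  have hg0 : 0 < g'.1 := deck_pos X hX c g' hg'
  obtain ⟨-, -, e3, -, -⟩ := h4 C S X hX c g' hg' (fwd t z' h')
  obtain ⟨-, -, -, -, e5⟩ := h4 C S X hX c g' hg' (fwd t z' h')
  obtain ⟨-, -, -, e4, -⟩ := h4 C S X hX c g' hg' (fwd t z' (h' + k / g'.1))
  have hkk : g'.1 * (k / g'.1) = k := by field_simp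
  have hfw : fwd t z k = act g' (fwd t z' (h' + k / g'.1)) := by
    rw [← fwd_add, act_fwd, ← hz, hkk]
  have hpos : 0 < k / g'.1 := div_pos hk hg0
  have hC2 : X.Clear t c (fwd t z' h') (k / g'.1) := by
    rw [← e5, hkk, ← hz]
    exact hC
  refine ⟨c, z', r', h' + k / g'.1, gmul g g', hS, by linarith, ?_, ?_,
    deck_mul X hX c g g' hg hg', ?_, ?_⟩
  · intro j hj0 hj
    rcases lt_trichotomy j h' with hlt | heq | hgt
    · exact hC' j hj0 hlt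
    · rw [heq, ← e3, ← hz]
      exact hp
    · have h5 := hC2 (j - h') (by linarith) (by linarith)
      rw [fwd_add] at h5
      have h6 : h' + (j - h') = j := by ring
      rwa [h6] at h5
  · rw [← e4, ← hfw]
    exact hV
  · rw [act_gmul, ← hfw]
  · simp only [gmul]
    ring

theorem ch_snoc (X : Data C S) (t : ℝ) : ∀ (n : ℕ) (y y' y'' : S × ℝ) (m k : ℝ),
    X.Ch t n y y' m → y''.2 ∈ Ioo (0 : ℝ) 1 → X.Step t (X.sp y') (X.sp y'') k →
    X.Ch t (n + 1) y y'' (m * k)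
  | 0, y, y', y'', m, k, h, hy, hs => by
    obtain ⟨rfl, rfl⟩ := h
    exact ⟨y'', k, 1, hy, hs, ⟨rfl, rfl⟩, by ring⟩
  | n + 1, y, y', y'', m, k, h, hy, hs => by
    obtain ⟨y₁, m₁, m₂, hy₁, hs₁, hc, rfl⟩ := h
    exact ⟨y₁, m₁, m₂ * k, hy₁, hs₁, ch_snoc X t n y₁ y' y'' m₂ k hc hy hs, by ring⟩

theorem ch_reach (X : Data C S) (t : ℝ) : ∀ (n : ℕ) (P : C × ℝ × ℝ) (y y' : S × ℝ) (a b : ℝ),
    X.Reach t P (X.sp y) a → X.Ch t n y y' b → X.Reach t P (X.sp y') (a * b)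
  | 0, P, y, y', a, b, hr, hc => by
    obtain ⟨rfl, rfl⟩ := hc
    rw [mul_one]
    exact hr
  | n + 1, P, y, y', a, b, hr, hc => by
    obtain ⟨y₁, m₁, m₂, hy₁, hs₁, hc', rfl⟩ := hc
    rw [← mul_assoc]
    exact ch_reach X t n P y₁ y' (a * m₁) m₂ (Reach.tail hr hs₁) hc'

end H51CL

open Set Data H51CL

theorem pf_CL (h1 : T_CL1) (h2 : T_NF) (h3 : T_EQS) (h4 : T_EQV) : T_CL := by
  intro C S X hX hU t ht P m hR
  rcases h2 C S X hX t P P m hR with hS | ⟨y, y', n, m₁, m₂, m₃, hy, hy', hS1, hC, hS3, hm⟩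
  · rcases h1 C S X hX hU t ht P m hS with ⟨y, hy, hsame, hc⟩ | h5
    · left
      refine ⟨y, 1, hy, ?_, one_pos, hc⟩
      obtain ⟨e1, g, hg, e2⟩ := hsame
      have h6 := (h3 C S X hX t P P m hS).2.1 g hg
      refine ⟨m * g.1, Reach.step ?_⟩
      have h7 : X.sp y = (P.1, act g P.2) := Prod.ext e1.symm e2
      rw [h7]
      exact h6
    · right
      exact h5
  · left
    have hS1' := hS1
    obtain ⟨c, z, r, h, g, hst, hh, hCl, hV, hg, hQ, hm1⟩ := hS1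
    cases hst with
    | pure _ _ hp =>
      have hj := join h4 X hX t (X.sp y') (X.sp y) c z hp m₃ m₁ hS3
        ⟨h, g, hh, hCl, hV, hg, hQ, by rw [hm1, one_mul]⟩
      refine ⟨y, n + 1, hy, ⟨m₁, Reach.step hS1'⟩, Nat.succ_pos _, ?_⟩
      have h8 := ch_snoc X t n y y' y m₂ (m₃ * m₁) hC hy hj
      have h9 : m₂ * (m₃ * m₁) = m := by rw [hm]; ring
      rwa [h9] at h8
    | cross s g₁ ξ hg₁ h0 h01 =>
      have hpos : 0 < g₁.1 := deck_pos X hX _ g₁ hg₁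
      have hinv := deck_inv X hX _ g₁ hg₁
      have hsp : X.sp (s, ξ) = (X.comp s, act (ginv g₁) (act g₁ (X.pt s ξ))) := by
        rw [act_ginv _ hpos.ne']
        rfl
      have a1 := (h3 C S X hX t _ _ m₁ hS1').1 (ginv g₁) hinv
      have a2 := (h3 C S X hX t _ _ m₃ hS3).2.1 (ginv g₁) hinv
      simp only [] at a1 a2
      rw [← hsp] at a1 a2
      have hy₀ : ((s, ξ) : S × ℝ).2 ∈ Ioo (0 : ℝ) 1 := ⟨h0, h01⟩
      refine ⟨(s, ξ), n + 2, hy₀, ?_, by omega, ?_⟩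
      · exact ⟨_, Reach.tail (ch_reach X t n _ y y' _ _ (Reach.step hS1') hC) a2⟩
      · have h8 := ch_snoc X t n y y' (s, ξ) m₂ _ hC hy₀ a2
        refine ⟨y, _, _, hy, a1, h8, ?_⟩
        rw [hm]
        simp only [ginv]
        field_simp

end DS
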