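import Pool.Agent.H8.DS.TarG

set_option autoImplicit false

namespace DS

namespace H51CMPB

open Set Data

variable {C S : Type}

theorem aux (h1 : T_SCB) (h2 : T_EQR) (h4 : T_SAMEEQ) (X : Data C S) (hX : X.Surface) (t : ℝ)
    (Q N : C × ℝ × ℝ) (a : ℝ) (hr : X.Reach t Q N a) : ∀ (P : C × ℝ × ℝ) (k : ℝ),
    X.Step t P N k → X.Same P Q ∨ X.Leaf t P Q ∨ X.Leaf t Q P := by
  have hE := h4 C S X hX
  induction hr with
  | step h =>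
    intro P k hs
    rcases h1 C S X hX t _ P _ k _ hs h with h5 | ⟨j, h5⟩ | ⟨j, h5⟩
    · exact Or.inl h5
    · exact Or.inr (Or.inl ⟨j, Reach.step h5⟩)
    · exact Or.inr (Or.inr ⟨j, Reach.step h5⟩)
  | tail h h' ih =>
    intro P k hs
    rcases h1 C S X hX t _ P _ k _ hs h' with h5 | ⟨j, h5⟩ | ⟨j, h5⟩
    · exact Or.inr (Or.inr (h2 C S X hX t _ _ _ _ (hE.refl _) (hE.symm h5) ⟨_, h⟩))
    · exact ih P j h5
    · exact Or.inr (Or.inr ⟨_, Reach.tail h h5⟩)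

theorem main (h1 : T_SCB) (h2 : T_EQR) (h3 : T_TRANS) (h4 : T_SAMEEQ) (X : Data C S)
    (hX : X.Surface) (t : ℝ) (P M : C × ℝ × ℝ) (a : ℝ) (hr : X.Reach t P M a) :
    ∀ (Q : C × ℝ × ℝ), X.Leaf t Q M → X.Same P Q ∨ X.Leaf t P Q ∨ X.Leaf t Q P := by
  have hE := h4 C S X hX
  induction hr with
  | step h =>
    rintro Q ⟨b, hq⟩
    exact aux h1 h2 h4 X hX t Q _ b hq _ _ h
  | tail h h' ih =>
    rintro Q ⟨b, hq⟩
    rcases aux h1 h2 h4 X hX t Q _ b hq _ _ h' with h5 | ⟨j, h5⟩ | h5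
    · exact Or.inr (Or.inl (h2 C S X hX t _ _ _ _ (hE.refl _) h5 ⟨_, h⟩))
    · exact Or.inr (Or.inl ⟨_, h3 C S X t _ _ _ _ _ h h5⟩)
    · exact ih Q h5

end H51CMPB

open Set Data

theorem pf_CMPB (h1 : T_SCB) (h2 : T_EQR) (h3 : T_TRANS) (h4 : T_SAMEEQ) : T_CMPB := by
  rintro C S X hX t M P Q ⟨a, ha⟩ hQ
  exact H51CMPB.main h1 h2 h3 h4 X hX t P M a ha Q hQ

end DS
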