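import Pool.Agent.H8.DS.TarG

set_option autoImplicit false

namespace DS

namespace H51DIR

open Set Data

variable {C S : Type}

theorem val (h3 : T_EQS) (X : Data C S) (hX : X.Surface) (t : ℝ) (P M : C × ℝ × ℝ) (a : ℝ)
    (hr : X.Reach t P M a) : X.Valid M.1 M.2 := by
  cases hr with
  | step h => exact (h3 C S X hX t _ _ _ h).2.2.1
  | tail h h' => exact (h3 C S X hX t _ _ _ h').2.2.1

end H51DIR

open Set Data

theorem pf_DIR (h1 : T_CMP) (h2 : T_NXU) (h3 : T_EQS) (h4 : T_EQR) (h5 : T_TRANS)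
    (h6 : T_SAMEEQ) : T_DIR := by
  intro C S _ X hX t M P Q hM hP hQ
  have hE := h6 C S X hX
  have vP : X.Valid P.1 P.2 := by
    rcases hP with rfl | ⟨a, ha⟩
    · exact hM
    · exact H51DIR.val h3 X hX t M P a ha
  have vQ : X.Valid Q.1 Q.2 := by
    rcases hQ with rfl | ⟨a, ha⟩
    · exact hM
    · exact H51DIR.val h3 X hX t M Q a ha
  have hc : X.Same P Q ∨ X.Leaf t P Q ∨ X.Leaf t Q P := by
    rcases hP with rfl | hP
    · rcases hQ with rfl | hQ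
      · exact Or.inl (hE.refl _)
      · exact Or.inr (Or.inl hQ)
    · rcases hQ with rfl | hQ
      · exact Or.inr (Or.inr hP)
      · exact h1 C S X hX t M P Q hP hQ
  rcases hc with h7 | ⟨a, h7⟩ | ⟨a, h7⟩
  · obtain ⟨⟨R, m, hR⟩, -⟩ := h2 C S X hX t P vP
    exact ⟨R, ⟨m, Reach.step hR⟩,
      h4 C S X hX t _ _ _ _ h7 (hE.refl _) ⟨m, Reach.step hR⟩⟩
  · obtain ⟨⟨R, m, hR⟩, -⟩ := h2 C S X hX t Q vQ
    exact ⟨R, ⟨_, h5 C S X t _ _ _ _ _ h7 (Reach.step hR)⟩, ⟨m, Reach.step hR⟩⟩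
  · obtain ⟨⟨R, m, hR⟩, -⟩ := h2 C S X hX t P vP
    exact ⟨R, ⟨m, Reach.step hR⟩, ⟨_, h5 C S X t _ _ _ _ _ h7 (Reach.step hR)⟩⟩

end DS
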